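import Pool.Agent.TH902.WT.Wt
import Pool.Agent.TH972.Trees

/-!
# Weighted spanning trees: simple graphs and sets of edges
-/

set_option autoImplicit false
set_option linter.unusedSectionVars false

namespace Pool.Agent.TH902.WT

open Finset Pool.Agent.TH968.UST Pool.Agent.TH830.UST

section Gr

variable {V : Type*}

theorem conn_iff_reachable (T : Set (Sym2 V)) (a b : V) :
    Conn ⊥ T a b ↔ (SimpleGraph.fromEdgeSet T).Reachable a b := by
  constructor
  · intro h
    induction h with
    | rel a b h =>
      rcases h with h | h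
      · have h1 : a = b := h
        rw [h1]
      · by_cases hab : a = b
        · rw [hab]
        · exact SimpleGraph.Adj.reachable ((SimpleGraph.fromEdgeSet_adj _).2 ⟨h, hab⟩)
    | refl a => exact SimpleGraph.Reachable.refl a
    | symm a b _ ih => exact ih.symm
    | trans a b c _ _ h1 h2 => exact h1.trans h2
  · rintro ⟨p⟩
    induction p with
    | nil => exact crefl _ _ _
    | cons h p ih => exact ctrans (cedge ((SimpleGraph.fromEdgeSet_adj _).1 h).1) ih

/-- the trees of a connected set of edges are the tree graphs -/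
theorem mem_trees_iff [Nonempty V] (E : Finset (Sym2 V))
    (hc : ∀ a b : V, Conn ⊥ (E : Set (Sym2 V)) a b) (hd : ∀ e ∈ E, ¬ e.IsDiag)
    (T : Finset (Sym2 V)) :
    T ∈ trees ⊥ E ↔ T ⊆ E ∧ (SimpleGraph.fromEdgeSet (T : Set (Sym2 V))).IsTree := by
  rw [mem_trees]
  have hdel : ∀ a b : V, (SimpleGraph.fromEdgeSet (T : Set (Sym2 V))).deleteEdges {s(a, b)} =
      SimpleGraph.fromEdgeSet ((T : Set (Sym2 V)) \ {s(a, b)}) := by
    intro a b
    rw [SimpleGraph.fromEdgeSet_sdiff]
    rfl
  constructor
  · rintro ⟨h1, h2, h3⟩
    refine ⟨h1, ?_⟩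
    rw [SimpleGraph.isTree_iff]
    refine ⟨⟨fun a b => ?_⟩, ?_⟩
    · rw [← conn_iff_reachable]
      exact clift (fun _ _ h => crel h) (fun a b h => h2 a b (Finset.mem_coe.1 h)) (hc a b)
    · rw [SimpleGraph.isAcyclic_iff_forall_adj_isBridge]
      intro a b hab
      rw [SimpleGraph.isBridge_iff, hdel, ← conn_iff_reachable]
      exact h3 a b ((SimpleGraph.fromEdgeSet_adj _).1 hab).1
  · rintro ⟨h1, h2⟩
    rw [SimpleGraph.isTree_iff] at h2
    refine ⟨h1, ?_, ?_⟩
    · intro a b _
      rw [conn_iff_reachable]
      exact h2.1.preconnected a b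
    · intro a b hab
      have h3 := h2.2
      rw [SimpleGraph.isAcyclic_iff_forall_adj_isBridge] at h3
      have hne : a ≠ b := by
        rintro rfl
        exact hd _ (h1 (Finset.mem_coe.1 hab)) (Sym2.mk_isDiag_iff.2 rfl)
      have h4 := h3 ((SimpleGraph.fromEdgeSet_adj _).2 ⟨hab, hne⟩)
      rw [SimpleGraph.isBridge_iff, hdel, ← conn_iff_reachable] at h4
      exact h4

end Gr

section Tr

variable {V W : Type*}

/-- connection through an injection of the vertices -/
theorem conn_image (p : V → W) (q : W → V) (hq : ∀ x, q (p x) = x) (T : Set (Sym2 V)) (x y : V) :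
    Conn ⊥ (Sym2.map p '' T) (p x) (p y) ↔ Conn ⊥ T x y := by
  constructor
  · intro h
    have key : ∀ a b : W, Conn ⊥ (Sym2.map p '' T) a b → Conn ⊥ T (q a) (q b) := by
      intro a b h
      induction h with
      | rel a b h =>
        rcases h with h | h
        · have h1 : a = b := h
          rw [h1]
          exact crefl _ _ _
        · obtain ⟨e, he, he2⟩ := h
          induction e using Sym2.ind with
          | _ u v =>
            rw [Sym2.map_mk] at he2
            rcases Sym2.eq_iff.1 he2 with ⟨h1, h2⟩ | ⟨h1, h2⟩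
            · have h1' : p u = a := h1
              have h2' : p v = b := h2
              rw [← h1', ← h2', hq, hq]
              exact cedge he
            · have h1' : p u = b := h1
              have h2' : p v = a := h2
              rw [← h1', ← h2', hq, hq]
              exact csymm (cedge he)
      | refl a => exact crefl _ _ _
      | symm a b _ ih => exact csymm ih
      | trans a b c _ _ h1 h2 => exact ctrans h1 h2
    have h1 := key _ _ h
    rwa [hq, hq] at h1
  · intro h
    induction h with
    | rel a b h =>
      rcases h with h | h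
      · have h1 : a = b := h
        rw [h1]
        exact crefl _ _ _
      · exact cedge ⟨s(a, b), h, rfl⟩
    | refl a => exact crefl _ _ _
    | symm a b _ ih => exact csymm ih
    | trans a b c _ _ h1 h2 => exact ctrans h1 h2

variable [DecidableEq V] [DecidableEq W]

/-- trees through an injection of the vertices -/
theorem trees_image (p : V → W) (q : W → V) (hq : ∀ x, q (p x) = x) (E : Finset (Sym2 V)) :
    trees ⊥ (E.image (Sym2.map p)) = (trees ⊥ E).image (fun T => T.image (Sym2.map p)) := by
  have hp : Function.Injective p := fun a b h => by rw [← hq a, h, hq]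
  have hm : Function.Injective (Sym2.map p) := Sym2.map.injective hp
  have key : ∀ T : Finset (Sym2 V), T.image (Sym2.map p) ∈ trees ⊥ (E.image (Sym2.map p)) ↔
      T ∈ trees ⊥ E := by
    intro T
    rw [mem_trees, mem_trees, Finset.image_subset_image_iff hm]
    refine and_congr_right fun hTE => and_congr ?_ ?_
    · rw [Finset.coe_image]
      constructor
      · intro h a b hab
        rw [← conn_image p q hq]
        exact h (p a) (p b) (Finset.mem_image.2 ⟨s(a, b), hab, rfl⟩)
      · intro h a b hab
        obtain ⟨e, he, he2⟩ := Finset.mem_image.1 hab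
        induction e using Sym2.ind with
        | _ u v =>
          rw [Sym2.map_mk] at he2
          rcases Sym2.eq_iff.1 he2 with ⟨h1, h2⟩ | ⟨h1, h2⟩
          · have h1' : p u = a := h1
            have h2' : p v = b := h2
            rw [← h1', ← h2', conn_image p q hq]
            exact h u v he
          · have h1' : p u = b := h1
            have h2' : p v = a := h2
            rw [← h1', ← h2']
            apply csymm
            rw [conn_image p q hq]
            exact h u v he
    · have himg : ∀ u v : V, ((T.image (Sym2.map p) : Finset (Sym2 W)) : Set (Sym2 W)) \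
          {s(p u, p v)} = Sym2.map p '' ((T : Set (Sym2 V)) \ {s(u, v)}) := by
        intro u v
        rw [Set.image_sdiff hm, Set.image_singleton, Finset.coe_image, Sym2.map_mk]
      constructor
      · intro h a b hab
        rw [← conn_image p q hq, ← himg]
        exact h (p a) (p b) (Finset.mem_coe.2 (Finset.mem_image.2 ⟨s(a, b), hab, rfl⟩))
      · intro h a b hab
        obtain ⟨e, he, he2⟩ := Finset.mem_image.1 (Finset.mem_coe.1 hab)
        induction e using Sym2.ind with
        | _ u v =>
          rw [Sym2.map_mk] at he2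
          rcases Sym2.eq_iff.1 he2 with ⟨h1, h2⟩ | ⟨h1, h2⟩
          · have h1' : p u = a := h1
            have h2' : p v = b := h2
            rw [← h1', ← h2', himg, conn_image p q hq]
            exact h u v he
          · have h1' : p u = b := h1
            have h2' : p v = a := h2
            rw [← h1', ← h2']
            intro hcon
            have hcon2 := csymm hcon
            rw [show s(p v, p u) = s(p u, p v) from Sym2.eq_swap, himg,
              conn_image p q hq] at hcon2
            exact h u v he hcon2
  ext S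
  rw [Finset.mem_image]
  constructor
  · intro hS
    have hSE := (mem_trees.1 hS).1
    obtain ⟨T, hT, rfl⟩ := Finset.subset_image_iff.1 hSE
    exact ⟨T, (key T).1 hS, rfl⟩
  · rintro ⟨T, hT, rfl⟩
    exact (key T).2 hT

end Tr

section ST

open Pool.Agent.TH972 (sumT wT)

variable {V : Type*} [Fintype V] [DecidableEq V]

/-- the weight of a graph -/
theorem wT_eq (w : Sym2 V → ℝ) (G : SimpleGraph V) (T : Finset (Sym2 V))
    (h : G.edgeSet = (T : Set (Sym2 V))) : wT w G = P w T := by
  classical
  unfold wT P
  refine Finset.prod_congr ?_ fun _ _ => rfl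
  ext e
  rw [Finset.mem_filter, h, Finset.mem_coe]
  simp

open Classical in
/-- sums over the tree graphs as sums over the trees of a set of edges -/
theorem sumT_eq [Nonempty V] (w : Sym2 V → ℝ) (E : Finset (Sym2 V))
    (hc : ∀ a b : V, Conn ⊥ (E : Set (Sym2 V)) a b) (hd : ∀ e ∈ E, ¬ e.IsDiag)
    (h0 : ∀ e, ¬ e.IsDiag → e ∉ E → w e = 0) (B : SimpleGraph V → Prop) :
    sumT w B = ∑ T ∈ trees ⊥ E, P w T *
      (if B (SimpleGraph.fromEdgeSet (T : Set (Sym2 V))) then 1 else 0) := by
  have hes : ∀ T : Finset (Sym2 V), T ⊆ E →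
      (SimpleGraph.fromEdgeSet (T : Set (Sym2 V))).edgeSet = (T : Set (Sym2 V)) := by
    intro T hT
    rw [SimpleGraph.edgeSet_fromEdgeSet]
    ext e
    rw [Set.mem_sdiff]
    constructor
    · exact fun h => h.1
    · exact fun h => ⟨h, fun k => hd e (hT (Finset.mem_coe.1 h)) k⟩
  have hwt : ∀ T : Finset (Sym2 V), T ⊆ E →
      wT w (SimpleGraph.fromEdgeSet (T : Set (Sym2 V))) = P w T := by
    intro T hT
    exact wT_eq w _ T (hes T hT)
  have h1 : ∑ T ∈ trees ⊥ E, P w T *
      (if B (SimpleGraph.fromEdgeSet (T : Set (Sym2 V))) then (1:ℝ) else 0) =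
      ∑ T ∈ (trees ⊥ E).filter (fun T : Finset (Sym2 V) =>
        B (SimpleGraph.fromEdgeSet (T : Set (Sym2 V)))),
        wT w (SimpleGraph.fromEdgeSet (T : Set (Sym2 V))) := by
    rw [Finset.sum_filter]
    refine Finset.sum_congr rfl fun T hT => ?_
    rw [hwt T (mem_trees.1 hT).1]
    split_ifs <;> ring
  have hinj : Set.InjOn (fun T : Finset (Sym2 V) => SimpleGraph.fromEdgeSet (T : Set (Sym2 V)))
      (((trees ⊥ E).filter (fun T : Finset (Sym2 V) =>
        B (SimpleGraph.fromEdgeSet (T : Set (Sym2 V)))) :
        Finset (Finset (Sym2 V))) : Set (Finset (Sym2 V))) := by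
    intro T hT T' hT' hTT
    rw [Finset.mem_coe, Finset.mem_filter] at hT hT'
    have h2 : SimpleGraph.fromEdgeSet (T : Set (Sym2 V)) =
      SimpleGraph.fromEdgeSet (T' : Set (Sym2 V)) := hTT
    have h3 := hes T (mem_trees.1 hT.1).1
    rw [h2, hes T' (mem_trees.1 hT'.1).1] at h3
    exact (Finset.coe_injective h3).symm
  rw [h1]
  have h2 := Finset.sum_image (f := fun G => wT w G) hinj
  unfold sumT
  rw [← h2]
  symm
  apply Finset.sum_subset
  · intro G hG
    obtain ⟨T, hT, rfl⟩ := Finset.mem_image.1 hG
    rw [Finset.mem_filter] at hT ⊢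
    exact ⟨Finset.mem_univ _, ((mem_trees_iff E hc hd T).1 hT.1).2, hT.2⟩
  · intro G hG hG2
    rw [Finset.mem_filter] at hG
    by_cases hGE : ∀ e ∈ G.edgeSet, e ∈ E
    · exfalso
      apply hG2
      rw [Finset.mem_image]
      have h3 : ((univ.filter (fun e : Sym2 V => e ∈ G.edgeSet) : Finset (Sym2 V)) :
          Set (Sym2 V)) = G.edgeSet := by
        ext e
        simp
      have h4 : SimpleGraph.fromEdgeSet ((univ.filter (fun e : Sym2 V => e ∈ G.edgeSet) :
          Finset (Sym2 V)) : Set (Sym2 V)) = G := by
        rw [h3, SimpleGraph.fromEdgeSet_edgeSet]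
      refine ⟨univ.filter (fun e : Sym2 V => e ∈ G.edgeSet), ?_, h4⟩
      rw [Finset.mem_filter, mem_trees_iff E hc hd, h4]
      refine ⟨⟨?_, hG.2.1⟩, hG.2.2⟩
      intro e he
      exact hGE e (Finset.mem_filter.1 he).2
    · push Not at hGE
      obtain ⟨e, he, he2⟩ := hGE
      unfold wT
      apply Finset.prod_eq_zero (Finset.mem_filter.2 ⟨Finset.mem_univ e, he⟩)
      exact h0 e (SimpleGraph.not_isDiag_of_mem_edgeSet _ he) he2

end ST

end Pool.Agent.TH902.WT
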