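import Pool.Agent.TH830.J73
import Pool.Agent.TH830.J74

/-!
# Weighted spanning trees with identified vertices: Rayleigh monotonicity and the
# Feder and Mihail stochastic domination
-/

set_option autoImplicit false
set_option linter.unusedSectionVars false

namespace Pool.Agent.TH902.WT

open Finset Pool.Agent.TH968.UST Pool.Agent.TH830.UST
open Pool.Agent.TH830.J73 (ic sg sg_mk ic_congr ic_one ic_zero sum_sg ic_add ic_tree ic_nonneg
  ic_le_one dpr dpr_mk dsq_mk dsq_nonneg)
open Pool.Agent.TH830.J74 (contr contr_le erase_mem insert_mem mem_erase_iff mem_of_bridge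
  trees_contr_bridge notMem_of_rel trees_card_eq)

variable {V : Type*} [DecidableEq V]

/-- weight of an edge set -/
noncomputable def P (w : Sym2 V → ℝ) (T : Finset (Sym2 V)) : ℝ := ∏ e ∈ T, w e

/-- total weight of the trees -/
noncomputable def Z (w : Sym2 V → ℝ) (r : Setoid V) (E : Finset (Sym2 V)) : ℝ :=
  ∑ T ∈ trees r E, P w T

theorem P_pos {w : Sym2 V → ℝ} (hw : ∀ e, 0 < w e) (T : Finset (Sym2 V)) : 0 < P w T :=
  Finset.prod_pos fun e _ => hw e

theorem Z_pos {w : Sym2 V → ℝ} (hw : ∀ e, 0 < w e) (r : Setoid V) (E : Finset (Sym2 V)) :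
    0 < Z w r E :=
  Finset.sum_pos (fun T _ => P_pos hw T) (trees_nonempty r E)

theorem P_erase {w : Sym2 V → ℝ} {T : Finset (Sym2 V)} {e : Sym2 V} (he : e ∈ T) :
    w e * P w (T.erase e) = P w T := Finset.mul_prod_erase T w he

theorem P_insert {w : Sym2 V → ℝ} {T : Finset (Sym2 V)} {e : Sym2 V} (he : e ∉ T) :
    P w (Insert.insert e T) = w e * P w T := Finset.prod_insert he

/-- the weight of the trees containing `e` (without the factor of `e`) such that `x` is connected
to `v` without `e` -/
noncomputable def cnt (w : Sym2 V → ℝ) (r : Setoid V) (E : Finset (Sym2 V)) (e : Sym2 V)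
    (x v : V) : ℝ :=
  ∑ T ∈ (trees r E).filter (fun T => e ∈ T), P w (T.erase e) * ic r (T.erase e) x v

/-- the exchange bijection -/
theorem exch (w : Sym2 V → ℝ) (r : Setoid V) (E : Finset (Sym2 V)) {x y a b : V}
    (he : s(x, y) ∈ E) (hf : s(a, b) ∈ E) :
    ∑ T ∈ (trees r E).filter (fun T => s(x, y) ∈ T), P w (T.erase s(x, y)) *
      (ic r (T.erase s(x, y)) x a * (1 - ic r (T.erase s(x, y)) x b)) =
    ∑ T ∈ (trees r E).filter (fun T => s(a, b) ∈ T), P w (T.erase s(a, b)) *
      (ic r (T.erase s(a, b)) x a * (1 - ic r (T.erase s(a, b)) y a)) := by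
  classical
  have key : ∀ (Q : Finset (Sym2 V) → Prop) [DecidablePred Q] (F : Finset (Finset (Sym2 V)))
      (p h : Finset (Sym2 V) → ℝ), (∀ T ∈ F, Q T → h T = 1) → (∀ T ∈ F, ¬ Q T → h T = 0) →
      ∑ T ∈ F, p T * h T = ∑ T ∈ F.filter Q, p T := by
    intro Q _ F p h h1 h2
    rw [Finset.sum_filter]
    refine Finset.sum_congr rfl fun T hT => ?_
    by_cases hQ : Q T
    · rw [h1 T hT hQ, if_pos hQ, mul_one]
    · rw [h2 T hT hQ, if_neg hQ, mul_zero]
  rw [key (fun T => Conn r ((T.erase s(x, y) : Finset (Sym2 V)) : Set (Sym2 V)) x a ∧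
      ¬ Conn r ((T.erase s(x, y) : Finset (Sym2 V)) : Set (Sym2 V)) x b) _ _ _ ?_ ?_,
    key (fun T => Conn r ((T.erase s(a, b) : Finset (Sym2 V)) : Set (Sym2 V)) x a ∧
      ¬ Conn r ((T.erase s(a, b) : Finset (Sym2 V)) : Set (Sym2 V)) y a) _ _ _ ?_ ?_]
  · refine Finset.sum_bij' (fun T _ => Insert.insert s(a, b) (T.erase s(x, y)))
      (fun T _ => Insert.insert s(x, y) (T.erase s(a, b))) ?_ ?_ ?_ ?_ ?_
    · intro T hT
      simp only [Finset.mem_filter] at hT ⊢
      obtain ⟨⟨hT, hxy⟩, h1, h2⟩ := hT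
      have hn : ¬ Conn r ((T.erase s(x, y) : Finset (Sym2 V)) : Set (Sym2 V)) a b :=
        fun k => h2 (ctrans h1 k)
      have hn' : s(a, b) ∉ T.erase s(x, y) := fun k => hn (cedge (Finset.mem_coe.2 k))
      refine ⟨⟨exchange hT hf hn, Finset.mem_insert_self _ _⟩, ?_⟩
      rw [Finset.erase_insert hn']
      exact ⟨h1, fun k => bridge hT hxy (ctrans h1 (csymm k))⟩
    · intro T hT
      simp only [Finset.mem_filter] at hT ⊢
      obtain ⟨⟨hT, hab⟩, h1, h2⟩ := hT
      have hn : ¬ Conn r ((T.erase s(a, b) : Finset (Sym2 V)) : Set (Sym2 V)) x y :=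
        fun k => h2 (ctrans (csymm k) h1)
      have hn' : s(x, y) ∉ T.erase s(a, b) := fun k => hn (cedge (Finset.mem_coe.2 k))
      refine ⟨⟨exchange hT he hn, Finset.mem_insert_self _ _⟩, ?_⟩
      rw [Finset.erase_insert hn']
      exact ⟨h1, fun k => bridge hT hab (ctrans (csymm h1) k)⟩
    · intro T hT
      simp only [Finset.mem_filter] at hT
      obtain ⟨⟨hT, hxy⟩, h1, h2⟩ := hT
      have hn : ¬ Conn r ((T.erase s(x, y) : Finset (Sym2 V)) : Set (Sym2 V)) a b :=
        fun k => h2 (ctrans h1 k)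
      have hn' : s(a, b) ∉ T.erase s(x, y) := fun k => hn (cedge (Finset.mem_coe.2 k))
      rw [Finset.erase_insert hn', Finset.insert_erase hxy]
    · intro T hT
      simp only [Finset.mem_filter] at hT
      obtain ⟨⟨hT, hab⟩, h1, h2⟩ := hT
      have hn : ¬ Conn r ((T.erase s(a, b) : Finset (Sym2 V)) : Set (Sym2 V)) x y :=
        fun k => h2 (ctrans (csymm k) h1)
      have hn' : s(x, y) ∉ T.erase s(a, b) := fun k => hn (cedge (Finset.mem_coe.2 k))
      rw [Finset.erase_insert hn', Finset.insert_erase hab]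
    · intro T hT
      simp only [Finset.mem_filter] at hT
      obtain ⟨⟨hT, hxy⟩, h1, h2⟩ := hT
      have hn : ¬ Conn r ((T.erase s(x, y) : Finset (Sym2 V)) : Set (Sym2 V)) a b :=
        fun k => h2 (ctrans h1 k)
      have hn' : s(a, b) ∉ T.erase s(x, y) := fun k => hn (cedge (Finset.mem_coe.2 k))
      rw [Finset.erase_insert hn']
  · rintro T - ⟨h1, h2⟩
    rw [ic_one h1, ic_zero h2]; ring
  · intro T _ h
    by_cases h1 : Conn r ((T.erase s(a, b) : Finset (Sym2 V)) : Set (Sym2 V)) x a
    · have h2 : Conn r ((T.erase s(a, b) : Finset (Sym2 V)) : Set (Sym2 V)) y a := by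
        by_contra h2; exact h ⟨h1, h2⟩
      rw [ic_one h1, ic_one h2]; ring
    · rw [ic_zero h1]; ring
  · rintro T - ⟨h1, h2⟩
    rw [ic_one h1, ic_zero h2]; ring
  · intro T _ h
    by_cases h1 : Conn r ((T.erase s(x, y) : Finset (Sym2 V)) : Set (Sym2 V)) x a
    · have h2 : Conn r ((T.erase s(x, y) : Finset (Sym2 V)) : Set (Sym2 V)) x b := by
        by_contra h2; exact h ⟨h1, h2⟩
      rw [ic_one h1, ic_one h2]; ring
    · rw [ic_zero h1]; ring

/-- the current through the edge `s(a, b)` -/
theorem cnt_sub (w : Sym2 V → ℝ) (r : Setoid V) (E : Finset (Sym2 V)) {x y a b : V}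
    (he : s(x, y) ∈ E) (hf : s(a, b) ∈ E) :
    cnt w r E s(x, y) x a - cnt w r E s(x, y) x b =
      ∑ T ∈ (trees r E).filter (fun T => s(a, b) ∈ T), P w (T.erase s(a, b)) *
        (ic r (T.erase s(a, b)) x a - ic r (T.erase s(a, b)) y a) := by
  have h1 := exch w r E he hf
  have h2 := exch w r E (a := b) (b := a) he (by rwa [Sym2.eq_swap])
  rw [show s(b, a) = s(a, b) from Sym2.eq_swap] at h2
  have h3 : cnt w r E s(x, y) x a - cnt w r E s(x, y) x b =
      ∑ T ∈ (trees r E).filter (fun T => s(x, y) ∈ T), P w (T.erase s(x, y)) *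
        (ic r (T.erase s(x, y)) x a * (1 - ic r (T.erase s(x, y)) x b)) -
      ∑ T ∈ (trees r E).filter (fun T => s(x, y) ∈ T), P w (T.erase s(x, y)) *
        (ic r (T.erase s(x, y)) x b * (1 - ic r (T.erase s(x, y)) x a)) := by
    unfold cnt
    rw [← Finset.sum_sub_distrib, ← Finset.sum_sub_distrib]
    refine Finset.sum_congr rfl fun T _ => ?_
    ring
  rw [h3, h1, h2, ← Finset.sum_sub_distrib]
  refine Finset.sum_congr rfl fun T hT => ?_
  obtain ⟨hT, hab⟩ := Finset.mem_filter.1 hT
  have e1 := ic_add hT (v := x) hab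
  have e2 := ic_add hT (v := y) hab
  have e3 := ic_tree hT he a
  rw [← mul_sub]
  congr 1
  set p := ic r (T.erase s(a, b)) x a
  set q := ic r (T.erase s(a, b)) x b
  set u := ic r (T.erase s(a, b)) y a
  set v := ic r (T.erase s(a, b)) y b
  have e4 : p + q = u + v := by rw [e1, e2, e3]
  have b01 : ∀ c d : V, ic r (T.erase s(a, b)) c d = 0 ∨ ic r (T.erase s(a, b)) c d = 1 := by
    intro c d; unfold ic; split_ifs <;> simp
  have hp : p = 0 ∨ p = 1 := b01 _ _
  have hq : q = 0 ∨ q = 1 := b01 _ _
  have hu : u = 0 ∨ u = 1 := b01 _ _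
  have hw : v = 0 ∨ v = 1 := b01 _ _
  have hs : p + q = 0 ∨ p + q = 1 := by
    rw [e1]; unfold ic; split_ifs <;> simp
  rcases hp with hp | hp <;> rcases hq with hq | hq <;> rcases hu with hu | hu <;>
    rcases hw with hw | hw <;> rw [hp, hq] at hs e4 <;> rw [hu, hw] at e4 <;>
    rw [hp, hq, hu, hw] <;>
    first
      | (exfalso; linarith)
      | (exfalso; rcases hs with hs | hs <;> linarith)
      | norm_num

/-- the reproducing identity -/
theorem bilin (w : Sym2 V → ℝ) (r : Setoid V) (E : Finset (Sym2 V)) {x y : V}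
    (he : s(x, y) ∈ E) (ψ : V → ℝ) (hψ : ∀ a b, r a b → ψ a = ψ b) :
    ∑ f ∈ E, w f * dpr (fun v => cnt w r E s(x, y) x v) ψ f = Z w r E * (ψ x - ψ y) := by
  classical
  have h1 : ∀ f ∈ E, w f * dpr (fun v => cnt w r E s(x, y) x v) ψ f =
      ∑ T ∈ (trees r E).filter (fun T => f ∈ T), P w T * (sg r T ψ x f - sg r T ψ y f) := by
    intro f hf
    induction f using Sym2.ind with
    | _ a b =>
      rw [dpr_mk, cnt_sub w r E he hf, Finset.sum_mul, Finset.mul_sum]
      refine Finset.sum_congr rfl fun T hT => ?_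
      obtain ⟨hT, hab⟩ := Finset.mem_filter.1 hT
      have e1 := ic_add hT (v := x) hab
      have e2 := ic_add hT (v := y) hab
      have e3 := ic_tree hT he a
      rw [sg_mk, sg_mk]
      have e4 : ic r (T.erase s(a, b)) x b = ic r (T.erase s(a, b)) y a +
          ic r (T.erase s(a, b)) y b - ic r (T.erase s(a, b)) x a := by
        rw [e2, ← e3, ← e1]; ring
      rw [e4, ← P_erase hab]; ring
  rw [Finset.sum_congr rfl h1]
  simp_rw [Finset.sum_filter]
  rw [Finset.sum_comm]
  have h2 : ∀ T ∈ trees r E, ∑ f ∈ E, (if f ∈ T then P w T * (sg r T ψ x f - sg r T ψ y f)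
      else 0) = P w T * (ψ x - ψ y) := by
    intro T hT
    have hTE := (mem_trees.1 hT).1
    rw [← Finset.sum_filter, Finset.filter_mem_eq_inter, Finset.inter_eq_right.2 hTE,
      ← Finset.mul_sum, Finset.sum_sub_distrib,
      sum_sg hT ψ hψ ((mem_trees.1 hT).2.1 x y he)]
  rw [Finset.sum_congr rfl h2, ← Finset.sum_mul]
  rfl

/-- weight of the trees containing `e` -/
theorem cnt_self (w : Sym2 V → ℝ) (r : Setoid V) (E : Finset (Sym2 V)) (e : Sym2 V) (x : V) :
    w e * cnt w r E e x x = ∑ T ∈ (trees r E).filter (fun T => e ∈ T), P w T := by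
  unfold cnt
  rw [Finset.mul_sum]
  refine Finset.sum_congr rfl fun T hT => ?_
  rw [ic_one (crefl _ _ _), mul_one, P_erase (Finset.mem_filter.1 hT).2]

theorem cnt_other (w : Sym2 V → ℝ) (r : Setoid V) (E : Finset (Sym2 V)) (x y : V) :
    cnt w r E s(x, y) x y = 0 := by
  unfold cnt
  refine Finset.sum_eq_zero fun T hT => ?_
  obtain ⟨hT, hxy⟩ := Finset.mem_filter.1 hT
  rw [ic_zero (bridge hT hxy), mul_zero]

theorem cnt_rel (w : Sym2 V → ℝ) (r : Setoid V) (E : Finset (Sym2 V)) (e : Sym2 V) (x a b : V)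
    (h : r a b) : cnt w r E e x a = cnt w r E e x b := by
  unfold cnt
  refine Finset.sum_congr rfl fun T _ => ?_
  have : Conn r ((T.erase e : Finset (Sym2 V)) : Set (Sym2 V)) x a ↔
      Conn r ((T.erase e : Finset (Sym2 V)) : Set (Sym2 V)) x b :=
    ⟨fun k => ctrans k (crel h), fun k => ctrans k (csymm (crel h))⟩
  classical
  unfold ic
  rw [if_congr this rfl rfl]

/-- the energy with conductances -/
noncomputable def energy (w : Sym2 V → ℝ) (E : Finset (Sym2 V)) (φ : V → ℝ) : ℝ :=
  ∑ e ∈ E, w e * dsq φ e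

theorem energy_nonneg {w : Sym2 V → ℝ} (hw : ∀ e, 0 < w e) (E : Finset (Sym2 V)) (φ : V → ℝ) :
    0 ≤ energy w E φ :=
  Finset.sum_nonneg fun f _ => mul_nonneg (hw f).le (dsq_nonneg φ f)

theorem dpr_le {w : Sym2 V → ℝ} (hw : ∀ e, 0 < w e) (E : Finset (Sym2 V)) (φ ψ : V → ℝ) :
    (∑ f ∈ E, w f * dpr φ ψ f) ^ 2 ≤ energy w E φ * energy w E ψ := by
  classical
  unfold energy
  have h := Finset.sum_mul_sq_le_sq_mul_sq E
    (fun f => Real.sqrt (w f) * (φ f.out.1 - φ f.out.2))
    (fun f => Real.sqrt (w f) * (ψ f.out.1 - ψ f.out.2))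
  have e1 : ∀ f : Sym2 V, w f * dpr φ ψ f = (Real.sqrt (w f) * (φ f.out.1 - φ f.out.2)) *
      (Real.sqrt (w f) * (ψ f.out.1 - ψ f.out.2)) := by
    intro f
    have h1 : dpr φ ψ f = (φ f.out.1 - φ f.out.2) * (ψ f.out.1 - ψ f.out.2) := by
      conv_lhs => rw [← Quot.out_eq f]
      rfl
    have h2 := Real.mul_self_sqrt (hw f).le
    rw [h1]
    linear_combination (-(φ f.out.1 - φ f.out.2) * (ψ f.out.1 - ψ f.out.2)) * h2
  have e2 : ∀ (φ : V → ℝ) (f : Sym2 V), w f * dsq φ f =
      (Real.sqrt (w f) * (φ f.out.1 - φ f.out.2)) ^ 2 := by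
    intro φ f
    have h1 : dsq φ f = (φ f.out.1 - φ f.out.2) ^ 2 := by
      conv_lhs => rw [← Quot.out_eq f]
      rfl
    have h2 := Real.mul_self_sqrt (hw f).le
    rw [h1]
    linear_combination (-(φ f.out.1 - φ f.out.2) ^ 2) * h2
  simp only [e1, e2]
  exact h

theorem pos_of_not_rel {w : Sym2 V → ℝ} (hw : ∀ e, 0 < w e) (r : Setoid V)
    (E : Finset (Sym2 V)) {x y : V} (hxy : s(x, y) ∈ E) (hr : ¬ r x y) :
    0 < cnt w r E s(x, y) x x := by
  have h := Finset.card_pos.1 (Pool.Agent.TH830.J73.pos_of_not_rel r E hxy hr)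
  have h2 := cnt_self w r E s(x, y) x
  have h3 : 0 < ∑ T ∈ (trees r E).filter (fun T => s(x, y) ∈ T), P w T :=
    Finset.sum_pos (fun T _ => P_pos hw T) h
  rw [← h2] at h3
  exact (mul_pos_iff_of_pos_left (hw _)).1 h3

/-- Rayleigh monotonicity with conductances -/
theorem RM {w : Sym2 V → ℝ} (hw : ∀ e, 0 < w e) (r r' : Setoid V) (hr : r' ≤ r)
    (E E' : Finset (Sym2 V)) (hE : E' ⊆ E) (e : Sym2 V) (he : e ∈ E') :
    (∑ T ∈ (trees r E).filter (fun T => e ∈ T), P w T) * Z w r' E' ≤
      (∑ T ∈ (trees r' E').filter (fun T => e ∈ T), P w T) * Z w r E := by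
  induction e using Sym2.ind with
  | _ x y =>
    by_cases hxy : r x y
    · have : (trees r E).filter (fun T => s(x, y) ∈ T) = ∅ := by
        rw [Finset.filter_eq_empty_iff]
        intro T hT hmem
        exact bridge hT hmem (crel hxy)
      rw [this, Finset.sum_empty, zero_mul]
      exact mul_nonneg (Finset.sum_nonneg fun T _ => (P_pos hw T).le) (Z_pos hw r E).le
    · have hxy' : ¬ r' x y := fun h => hxy (hr h)
      rw [← cnt_self w r E s(x, y) x, ← cnt_self w r' E' s(x, y) x]
      set M := cnt w r E s(x, y) x x with hM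
      set M' := cnt w r' E' s(x, y) x x with hM'
      have hM0 : 0 < M := pos_of_not_rel hw r E (hE he) hxy
      have hM0' : 0 < M' := pos_of_not_rel hw r' E' he hxy'
      have hZ := Z_pos hw r E
      have hZ' := Z_pos hw r' E'
      set φ : V → ℝ := fun v => cnt w r E s(x, y) x v with hφ
      set φ' : V → ℝ := fun v => cnt w r' E' s(x, y) x v with hφ'
      -- energies
      have h1 : energy w E φ = Z w r E * M := by
        have h := bilin w r E (hE he) φ (fun a b h => cnt_rel w r E _ x a b h)
        have e1 : φ x - φ y = M := by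
          show cnt w r E s(x, y) x x - cnt w r E s(x, y) x y = M
          rw [cnt_other, sub_zero]
        rw [e1] at h
        rw [← h]
        unfold energy
        refine Finset.sum_congr rfl fun f _ => ?_
        induction f using Sym2.ind with
        | _ a b => rw [dsq_mk, dpr_mk]; ring
      have h1' : energy w E' φ' = Z w r' E' * M' := by
        have h := bilin w r' E' he φ' (fun a b h => cnt_rel w r' E' _ x a b h)
        have e1 : φ' x - φ' y = M' := by
          show cnt w r' E' s(x, y) x x - cnt w r' E' s(x, y) x y = M'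
          rw [cnt_other, sub_zero]
        rw [e1] at h
        rw [← h]
        unfold energy
        refine Finset.sum_congr rfl fun f _ => ?_
        induction f using Sym2.ind with
        | _ a b => rw [dsq_mk, dpr_mk]; ring
      have h2 := bilin w r' E' he φ (fun a b h => cnt_rel w r E _ x a b (hr h))
      have e1 : φ x - φ y = M := by
        show cnt w r E s(x, y) x x - cnt w r E s(x, y) x y = M
        rw [cnt_other, sub_zero]
      rw [e1] at h2
      have h3 := dpr_le hw E' φ' φ
      rw [h2, h1'] at h3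
      have h4 : energy w E' φ ≤ energy w E φ :=
        Finset.sum_le_sum_of_subset_of_nonneg hE fun f _ _ => mul_nonneg (hw f).le (dsq_nonneg φ f)
      rw [h1] at h4
      have h5 : (Z w r' E' * M) ^ 2 ≤ Z w r' E' * M' * (Z w r E * M) :=
        h3.trans (mul_le_mul_of_nonneg_left h4 (mul_nonneg hZ'.le hM0'.le))
      have h6 : (Z w r' E' * M) * (M * Z w r' E') ≤ (Z w r' E' * M) * (M' * Z w r E) := by
        nlinarith
      have h7 := le_of_mul_le_mul_left h6 (mul_pos hZ' hM0)
      have h8 := mul_le_mul_of_nonneg_left h7 (hw s(x, y)).le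
      linarith

/-- average over the trees -/
noncomputable def av (w : Sym2 V → ℝ) (r : Setoid V) (E : Finset (Sym2 V))
    (h : Finset (Sym2 V) → ℝ) : ℝ :=
  (∑ T ∈ trees r E, P w T * h T) / Z w r E

theorem sum_eq_av {w : Sym2 V → ℝ} (hw : ∀ e, 0 < w e) (r : Setoid V) (E : Finset (Sym2 V))
    (h : Finset (Sym2 V) → ℝ) : ∑ T ∈ trees r E, P w T * h T = Z w r E * av w r E h := by
  unfold av
  have := Z_pos hw r E
  field_simp

/-- weight of the trees containing `f` -/
noncomputable def n1 (w : Sym2 V → ℝ) (r : Setoid V) (E : Finset (Sym2 V)) (f : Sym2 V) : ℝ :=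
  ∑ T ∈ (trees r E).filter (fun T => f ∈ T), P w T

/-- weight of the trees not containing `f` -/
noncomputable def n0 (w : Sym2 V → ℝ) (r : Setoid V) (E : Finset (Sym2 V)) (f : Sym2 V) : ℝ :=
  ∑ T ∈ (trees r E).filter (fun T => f ∉ T), P w T

theorem n1_add_n0 (w : Sym2 V → ℝ) (r : Setoid V) (E : Finset (Sym2 V)) (f : Sym2 V) :
    n1 w r E f + n0 w r E f = Z w r E :=
  Finset.sum_filter_add_sum_filter_not _ _ _

theorem n1_nonneg {w : Sym2 V → ℝ} (hw : ∀ e, 0 < w e) (r : Setoid V) (E : Finset (Sym2 V))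
    (f : Sym2 V) : 0 ≤ n1 w r E f := Finset.sum_nonneg fun T _ => (P_pos hw T).le

theorem n0_nonneg {w : Sym2 V → ℝ} (hw : ∀ e, 0 < w e) (r : Setoid V) (E : Finset (Sym2 V))
    (f : Sym2 V) : 0 ≤ n0 w r E f := Finset.sum_nonneg fun T _ => (P_pos hw T).le

/-- claim A -/
theorem sum_mem {w : Sym2 V → ℝ} (hw : ∀ e, 0 < w e) (r : Setoid V) (E : Finset (Sym2 V))
    {f : Sym2 V} (hf : f ∈ E) (h : Finset (Sym2 V) → ℝ) :
    ∑ T ∈ (trees r E).filter (fun T => f ∈ T), P w T * h T =
      n1 w r E f * av w (contr r f) (E.erase f) (fun T => h (Insert.insert f T)) := by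
  induction f using Sym2.ind with
  | _ a b =>
    by_cases hab : r a b
    · have h0 : (trees r E).filter (fun T => s(a, b) ∈ T) = ∅ := by
        rw [Finset.filter_eq_empty_iff]
        intro T hT
        exact notMem_of_rel hT hab
      unfold n1
      rw [h0]; simp
    · have hbij : ∀ k : Finset (Sym2 V) → ℝ,
          ∑ T ∈ (trees r E).filter (fun T => s(a, b) ∈ T), P w T * k T =
          w s(a, b) * ∑ T ∈ trees (contr r s(a, b)) (E.erase s(a, b)),
            P w T * k (Insert.insert s(a, b) T) := by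
        intro k
        rw [Finset.mul_sum]
        refine Finset.sum_bij' (fun T _ => T.erase s(a, b)) (fun T _ => Insert.insert s(a, b) T)
          ?_ ?_ ?_ ?_ ?_
        · intro T hT
          obtain ⟨hT, h1⟩ := Finset.mem_filter.1 hT
          exact erase_mem hT h1
        · intro T hT
          obtain ⟨h1, h2⟩ := insert_mem hf hab hT
          exact Finset.mem_filter.2 ⟨h1, Finset.mem_insert_self _ _⟩
        · intro T hT
          obtain ⟨hT, h1⟩ := Finset.mem_filter.1 hT
          exact Finset.insert_erase h1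
        · intro T hT
          obtain ⟨h1, h2⟩ := insert_mem hf hab hT
          exact Finset.erase_insert h2
        · intro T hT
          obtain ⟨hT, h1⟩ := Finset.mem_filter.1 hT
          rw [Finset.insert_erase h1, ← P_erase h1, mul_assoc]
      have hcard : n1 w r E s(a, b) =
          w s(a, b) * Z w (contr r s(a, b)) (E.erase s(a, b)) := by
        have := hbij (fun _ => 1)
        simp only [mul_one] at this
        exact this
      rw [hbij, sum_eq_av hw, hcard, mul_assoc]

/-- claim B -/
theorem sum_notMem {w : Sym2 V → ℝ} (hw : ∀ e, 0 < w e) (r : Setoid V) (E : Finset (Sym2 V))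
    {f : Sym2 V} (hf : f ∈ E) (h : Finset (Sym2 V) → ℝ) :
    ∑ T ∈ (trees r E).filter (fun T => f ∉ T), P w T * h T =
      n0 w r E f * av w r (E.erase f) h := by
  induction f using Sym2.ind with
  | _ a b =>
    by_cases hc : Conn r ((E.erase s(a, b) : Finset (Sym2 V)) : Set (Sym2 V)) a b
    · have h0 : (trees r E).filter (fun T => s(a, b) ∉ T) = trees r (E.erase s(a, b)) := by
        ext T
        rw [mem_erase_iff hc, Finset.mem_filter]
      unfold n0
      rw [h0, sum_eq_av hw]
      rfl
    · have h0 : (trees r E).filter (fun T => s(a, b) ∉ T) = ∅ := by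
        rw [Finset.filter_eq_empty_iff]
        intro T hT hn
        exact hn (mem_of_bridge hf hc hT)
      unfold n0
      rw [h0]; simp

/-- splitting an average -/
theorem sum_split {w : Sym2 V → ℝ} (hw : ∀ e, 0 < w e) (r : Setoid V) (E : Finset (Sym2 V))
    {f : Sym2 V} (hf : f ∈ E) (h : Finset (Sym2 V) → ℝ) :
    ∑ T ∈ trees r E, P w T * h T =
      n1 w r E f * av w (contr r f) (E.erase f) (fun T => h (Insert.insert f T)) +
        n0 w r E f * av w r (E.erase f) h := by
  rw [← sum_mem hw r E hf h, ← sum_notMem hw r E hf h]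
  exact (Finset.sum_filter_add_sum_filter_not _ _ _).symm

/-- Feder and Mihail, in terms of averages -/
theorem dom_av {w : Sym2 V → ℝ} (hw : ∀ e, 0 < w e)
    (n : ℕ) : ∀ (r r' : Setoid V) (_ : r' ≤ r) (E E' : Finset (Sym2 V)) (_ : E' ⊆ E)
    (_ : E'.card = n)
    (g : Finset (Sym2 V) → ℝ) (_ : ∀ S T, S ⊆ T → g S ≤ g T),
    av w r E (fun T => g (T ∩ E')) ≤ av w r' E' g := by
  induction n with
  | zero =>
    intro r r' hr E E' hE hn g hg
    have h0 : E' = ∅ := Finset.card_eq_zero.1 hn
    subst h0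
    have h1 : av w r' ∅ g = g ∅ := by
      unfold av
      have h2 : ∀ T ∈ trees r' ∅, P w T * g T = P w T * g ∅ := by
        intro T hT
        rw [Finset.subset_empty.1 (mem_trees.1 hT).1]
      rw [Finset.sum_congr rfl h2, ← Finset.sum_mul]
      have h3 := Z_pos hw r' (∅ : Finset (Sym2 V))
      show Z w r' ∅ * g ∅ / Z w r' ∅ = g ∅
      field_simp
    have h3 : av w r E (fun T => g (T ∩ ∅)) = g ∅ := by
      unfold av
      simp only [Finset.inter_empty, ← Finset.sum_mul]
      have h3 := Z_pos hw r E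
      show Z w r E * g ∅ / Z w r E = g ∅
      field_simp
    rw [h1, h3]
  | succ n ih =>
    intro r r' hr E E' hE hn g hg
    -- choice of the edge
    obtain ⟨T0, hT0⟩ := trees_nonempty r' E'
    have hk : ∀ T ∈ trees r' E', (T.card : ℝ) = T0.card := by
      intro T hT
      rw [trees_card_eq r' E' hT hT0]
    set N' : ℝ := Z w r' E' with hN'
    have hN'0 : 0 < N' := Z_pos hw r' E'
    have hdouble : ∀ k : Finset (Sym2 V) → ℝ,
        ∑ f ∈ E', ∑ T ∈ (trees r' E').filter (fun T => f ∈ T), k T =
          (T0.card : ℝ) * ∑ T ∈ trees r' E', k T := by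
      intro k
      simp_rw [Finset.sum_filter]
      rw [Finset.sum_comm, Finset.mul_sum]
      refine Finset.sum_congr rfl fun T hT => ?_
      rw [← Finset.sum_filter, Finset.filter_mem_eq_inter,
        Finset.inter_eq_right.2 (mem_trees.1 hT).1, Finset.sum_const, nsmul_eq_mul, hk T hT]
    have hex : ∃ f ∈ E', n1 w r' E' f * ∑ T ∈ trees r' E', P w T * g T ≤
        N' * ∑ T ∈ (trees r' E').filter (fun T => f ∈ T), P w T * g T := by
      by_contra hcon
      push Not at hcon
      have hne : E'.Nonempty := by rw [← Finset.card_pos, hn]; omega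
      have hlt := Finset.sum_lt_sum_of_nonempty hne hcon
      rw [← Finset.mul_sum, hdouble (fun T => P w T * g T), ← Finset.sum_mul] at hlt
      have h1 : ∑ f ∈ E', n1 w r' E' f = (T0.card : ℝ) * N' := hdouble (fun T => P w T)
      rw [h1] at hlt
      nlinarith
    obtain ⟨f, hf, hchoice⟩ := hex
    have hfE := hE hf
    have hE1 : E'.erase f ⊆ E.erase f := Finset.erase_subset_erase _ hE
    have hn1 : (E'.erase f).card = n := by
      rw [Finset.card_erase_of_mem hf, hn]; rfl
    have hg1 : ∀ S T : Finset (Sym2 V), S ⊆ T → g (Insert.insert f S) ≤ g (Insert.insert f T) :=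
      fun S T h => hg _ _ (Finset.insert_subset_insert _ h)
    have IH1 := ih (contr r f) (contr r' f) (contr_le hr f) (E.erase f) (E'.erase f) hE1 hn1
      (fun T => g (Insert.insert f T)) hg1
    have IH0 := ih r r' hr (E.erase f) (E'.erase f) hE1 hn1 g hg
    -- rewriting the left-hand averages
    have e1 : av w (contr r f) (E.erase f) (fun T => g (Insert.insert f T ∩ E')) =
        av w (contr r f) (E.erase f) (fun T => g (Insert.insert f (T ∩ E'.erase f))) := by
      unfold av
      congr 1
      refine Finset.sum_congr rfl fun T _ => ?_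
      congr 1
      show g _ = g _
      congr 1
      ext e
      simp only [Finset.mem_inter, Finset.mem_insert, Finset.mem_erase]
      constructor
      · rintro ⟨h1 | h1, h2⟩
        · exact Or.inl h1
        · by_cases h3 : e = f
          · exact Or.inl h3
          · exact Or.inr ⟨h1, h3, h2⟩
      · rintro (h1 | ⟨h1, -, h2⟩)
        · exact ⟨Or.inl h1, h1 ▸ hf⟩
        · exact ⟨Or.inr h1, h2⟩
    have e0 : av w r (E.erase f) (fun T => g (T ∩ E')) =
        av w r (E.erase f) (fun T => g (T ∩ E'.erase f)) := by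
      unfold av
      congr 1
      refine Finset.sum_congr rfl fun T hT => ?_
      congr 1
      show g _ = g _
      congr 1
      ext e
      simp only [Finset.mem_inter, Finset.mem_erase]
      constructor
      · rintro ⟨h1, h2⟩
        exact ⟨h1, (Finset.mem_erase.1 ((mem_trees.1 hT).1 h1)).1, h2⟩
      · rintro ⟨h1, -, h2⟩
        exact ⟨h1, h2⟩
    have hL := sum_split hw r E hfE (fun T => g (T ∩ E'))
    have hR := sum_split hw r' E' hf g
    rw [e1, e0] at hL
    set u1 := av w (contr r f) (E.erase f) (fun T => g (Insert.insert f (T ∩ E'.erase f)))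
    set u0 := av w r (E.erase f) (fun T => g (T ∩ E'.erase f))
    set v1 := av w (contr r' f) (E'.erase f) (fun T => g (Insert.insert f T)) with hv1
    set v0 := av w r' (E'.erase f) g with hv0
    set N : ℝ := Z w r E with hN
    have hN0 : 0 < N := Z_pos hw r E
    set a1 := n1 w r E f
    set a0 := n0 w r E f
    set b1 := n1 w r' E' f with hb1
    set b0 := n0 w r' E' f with hb0
    have ha : a1 + a0 = N := n1_add_n0 w r E f
    have hb : b1 + b0 = N' := n1_add_n0 w r' E' f
    have ha1 : 0 ≤ a1 := n1_nonneg hw _ _ _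
    have ha0 : 0 ≤ a0 := n0_nonneg hw _ _ _
    have hb1' : 0 ≤ b1 := n1_nonneg hw _ _ _
    have hb0' : 0 ≤ b0 := n0_nonneg hw _ _ _
    have hRM : a1 * N' ≤ b1 * N := RM hw r r' hr E E' hE f hf
    rw [hR] at hchoice
    have hch2 : ∑ T ∈ (trees r' E').filter (fun T => f ∈ T), P w T * g T = b1 * v1 :=
      sum_mem hw r' E' hf g
    rw [hch2] at hchoice
    -- goal in terms of the sums
    have goal' : (a1 * u1 + a0 * u0) * N' ≤ (b1 * v1 + b0 * v0) * N := by
      have hmain : b1 = 0 ∨ v0 ≤ v1 := by
        rcases eq_or_lt_of_le hb1' with h | h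
        · exact Or.inl h.symm
        · right
          rcases eq_or_lt_of_le hb0' with k | k
          · -- every tree contains `f`
            have hall : ∀ T ∈ trees r' E', f ∈ T := by
              intro T hT
              by_contra hfT
              have : 0 < n0 w r' E' f := by
                unfold n0
                exact Finset.sum_pos (fun T _ => P_pos hw T) ⟨T, Finset.mem_filter.2 ⟨hT, hfT⟩⟩
              rw [← hb0, ← k] at this
              exact lt_irrefl _ this
            have htr : trees (contr r' f) (E'.erase f) = trees r' (E'.erase f) := by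
              induction f using Sym2.ind with
              | _ a b =>
                apply trees_contr_bridge
                intro hc
                obtain ⟨T, hT⟩ := trees_nonempty r' (E'.erase s(a, b))
                obtain ⟨h1, h2⟩ := (mem_erase_iff hc T).1 hT
                exact h2 (hall T h1)
            rw [hv0, hv1]
            unfold av Z
            rw [htr]
            exact div_le_div_of_nonneg_right
              (Finset.sum_le_sum fun T _ =>
                mul_le_mul_of_nonneg_left (hg _ _ (Finset.subset_insert _ _)) (P_pos hw T).le)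
              (Z_pos hw r' _).le
          · have h0 : N' * (b1 * v1) = (b1 + b0) * (b1 * v1) := by rw [hb]
            have h1 : b1 * (b0 * v0) ≤ b1 * (b0 * v1) := by
              rw [h0] at hchoice
              linarith
            have h2 := le_of_mul_le_mul_left h1 h
            exact le_of_mul_le_mul_left h2 k
      have s1 : (a1 * u1 + a0 * u0) ≤ (a1 * v1 + a0 * v0) := by
        have := mul_le_mul_of_nonneg_left IH1 ha1
        have := mul_le_mul_of_nonneg_left IH0 ha0
        linarith
      have s2 : (a1 * v1 + a0 * v0) * N' ≤ (b1 * v1 + b0 * v0) * N := by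
        rcases hmain with h | h
        · rw [h] at hRM hb ⊢
          have h3 : a1 * N' = 0 := le_antisymm (by linarith) (mul_nonneg ha1 hN'0.le)
          have h4 : a1 = 0 := by
            rcases mul_eq_zero.1 h3 with h5 | h5
            · exact h5
            · exact absurd h5 hN'0.ne'
          rw [h4] at ha ⊢
          have h5 : a0 = N := by linarith
          have h6 : b0 = N' := by linarith
          rw [h5, h6]
          linarith
        · have h3 : a0 * N' - b0 * N = b1 * N - a1 * N' := by
            rw [← ha, ← hb]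
            ring
          have h4 : 0 ≤ (b1 * N - a1 * N') * (v1 - v0) :=
            mul_nonneg (by linarith) (by linarith)
          have h5 : (b1 * v1 + b0 * v0) * N - (a1 * v1 + a0 * v0) * N' =
              (b1 * N - a1 * N') * (v1 - v0) := by
            linear_combination (-v0) * h3
          linarith
      exact (mul_le_mul_of_nonneg_right s1 hN'0.le).trans s2
    show av w r E (fun T => g (T ∩ E')) ≤ av w r' E' g
    have f1 : av w r E (fun T => g (T ∩ E')) = (a1 * u1 + a0 * u0) / N := by
      unfold av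
      rw [hL]
    have f2 : av w r' E' g = (b1 * v1 + b0 * v0) / N' := by
      unfold av
      rw [hR]
    rw [f1, f2, div_le_div_iff₀ hN0 hN'0]
    exact goal'

/-- Feder and Mihail with conductances: more edges and more identifications make the weighted
spanning tree stochastically smaller on `E'`. -/
theorem dom {w : Sym2 V → ℝ} (hw : ∀ e, 0 < w e)
    (r r' : Setoid V) (hr : r' ≤ r) (E E' : Finset (Sym2 V)) (hE : E' ⊆ E)
    (g : Finset (Sym2 V) → ℝ) (hg : ∀ S T, S ⊆ T → g S ≤ g T) :
    (∑ T ∈ trees r E, P w T * g (T ∩ E')) * Z w r' E' ≤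
      (∑ T ∈ trees r' E', P w T * g T) * Z w r E := by
  have h := dom_av hw _ r r' hr E E' hE rfl g hg
  unfold av at h
  rwa [div_le_div_iff₀ (Z_pos hw r E) (Z_pos hw r' E')] at h

end Pool.Agent.TH902.WT
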